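import Mathlib

/-! Almost Golomb sequences: the greedy recursion and the window argument. -/

namespace Pool.Agent.X13.AG

open Finset

/-- `S a r n = a n + a (n-1) + ... + a (n-r+1)`, terms of index `≤ 0` read as `a 0`. -/
def S (a : ℕ → ℕ) (r n : ℕ) : ℕ := ∑ i ∈ range r, a (n - i)

theorem S_succ (a : ℕ → ℕ) (r n : ℕ) :
    S a r (n + 1) + a (n + 1 - r) = S a r n + a (n + 1) := by
  unfold S
  rw [← Finset.sum_range_succ (fun i => a (n + 1 - i)) r, Finset.sum_range_succ']
  congr 1
  apply Finset.sum_congr rfl
  intro i _
  congr 1
  omega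

structure Greedy (a : ℕ → ℕ) (r : ℕ) : Prop where
  zero : a 0 = 0
  one : a 1 = 1
  two : a 2 = 2
  three : a 3 = 2
  step : ∀ n, 3 ≤ n → a (n + 1) = if n + 1 = S a r (a n + 1) then a n + 1 else a n

namespace Greedy

variable {a : ℕ → ℕ} {r : ℕ}

theorem succ_cases (h : Greedy a r) (n : ℕ) : a (n + 1) = a n ∨ a (n + 1) = a n + 1 := by
  rcases Nat.lt_or_ge n 3 with hn | hn
  · interval_cases n
    · right; simp [h.zero, h.one]
    · right; simp [h.one, h.two]
    · left; simp [h.two, h.three]
  · rw [h.step n hn]
    split_ifs
    · right; rfl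
    · left; rfl

theorem mono (h : Greedy a r) : Monotone a :=
  monotone_nat_of_le_succ (fun n => by rcases h.succ_cases n with e | e <;> omega)

theorem le_pred (h : Greedy a r) (n : ℕ) (hn : 3 ≤ n) : a n + 1 ≤ n := by
  induction n, hn using Nat.le_induction with
  | base => rw [h.three]
  | succ n hn ih => rcases h.succ_cases n with e | e <;> omega

theorem pos (h : Greedy a r) (n : ℕ) (hn : 1 ≤ n) : 1 ≤ a n := by
  have := h.mono hn
  rw [h.one] at this
  exact this

theorem start_eq (h : Greedy a r) (n : ℕ) (hn : 3 ≤ n) (e : a (n + 1) = a n + 1) :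
    n + 1 = S a r (a n + 1) := by
  have := h.step n hn
  split_ifs at this with hc
  · exact hc
  · omega

/-- the start of block `c` is `S c`, for `c ≥ 3` -/
theorem start (h : Greedy a r) (c n : ℕ) (hc : 3 ≤ c) (hn : c ≤ a n) :
    S a r c ≤ n ∧ a (S a r c) = c ∧ 1 ≤ S a r c ∧ a (S a r c - 1) = c - 1 := by
  have hex : ∃ m, c ≤ a m := ⟨n, hn⟩
  classical
  let p := Nat.find hex
  have hp : c ≤ a p := Nat.find_spec hex
  have hpn : p ≤ n := Nat.find_min' hex hn
  have hlt : ∀ m, m < p → a m < c := fun m hm => by
    have := Nat.find_min hex hm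
    omega
  have hp4 : 4 ≤ p := by
    by_contra hcon
    have : a p ≤ a 3 := h.mono (by omega)
    rw [h.three] at this
    omega
  obtain ⟨q, hq⟩ : ∃ q, p = q + 1 := ⟨p - 1, by omega⟩
  have hq3 : 3 ≤ q := by omega
  have h1 := hlt q (by omega)
  rw [hq] at hp
  have h2 : a (q + 1) = a q + 1 := by rcases h.succ_cases q with e | e <;> omega
  have h3 := h.start_eq q hq3 h2
  have h4 : a q + 1 = c := by omega
  rw [h4] at h3
  rw [← h3]
  refine ⟨by omega, by omega, by omega, ?_⟩
  simp only [Nat.add_sub_cancel]
  omega

theorem S_one (h : Greedy a r) (hr : 2 ≤ r) : S a r 1 = 1 := by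
  unfold S
  obtain ⟨s, rfl⟩ : ∃ s, r = s + 1 := ⟨r - 1, by omega⟩
  rw [Finset.sum_range_succ']
  simp only [Nat.sub_zero, h.one]
  have : ∑ i ∈ range s, a (1 - (i + 1)) = 0 := by
    apply Finset.sum_eq_zero
    intro i _
    have : 1 - (i + 1) = 0 := by omega
    rw [this, h.zero]
  omega

theorem S_two (h : Greedy a r) (hr : 2 ≤ r) : S a r 2 = 3 := by
  have := S_succ a r 1
  have h0 : 1 + 1 - r = 0 := by omega
  rw [h0, h.zero, h.S_one hr] at this
  simp only [Nat.reduceAdd, h.two] at this
  omega

theorem a_S (h : Greedy a r) (hr : 2 ≤ r) (c n : ℕ) (hc : 1 ≤ c) (hn : c ≤ a n) :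
    a (S a r c) = c := by
  rcases Nat.lt_or_ge c 3 with hc3 | hc3
  · interval_cases c
    · rw [h.S_one hr, h.one]
    · rw [h.S_two hr, h.three]
  · exact (h.start c n hc3 hn).2.1

theorem S_add (h : Greedy a r) (k t : ℕ) (hkt : k + t ≤ r) :
    S a r (k + t) = S a r k + ∑ j ∈ range t, a (k + 1 + j) := by
  induction t with
  | zero => simp
  | succ t ih =>
    have h1 := ih (by omega)
    have h2 := S_succ a r (k + t)
    have h0 : k + t + 1 - r = 0 := by omega
    rw [h0, h.zero] at h2
    rw [Finset.sum_range_succ]
    have e : k + (t + 1) = k + t + 1 := by omega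
    have e2 : k + 1 + t = k + t + 1 := by omega
    rw [e, e2]
    omega

/-- **Window lemma.** -/
theorem window (h : Greedy a r) (hr : 2 ≤ r) (U : ℕ) (hU2 : 2 ≤ U) (hUr : U ≤ r)
    (har : a r ≤ U) (h3 : 3 ≤ a (2 + U)) : ∀ x, a x + 1 ≤ a (x + U) := by
  intro x
  induction x using Nat.strong_induction_on with
  | _ x ih =>
  rcases Nat.lt_or_ge x 3 with hx | hx
  · interval_cases x
    · rw [h.zero]
      exact h.pos _ (by omega)
    · rw [h.one]
      have : a 3 ≤ a (1 + U) := h.mono (by omega)
      rw [h.three] at this
      omega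
    · rw [h.two]
      exact h3
  · by_contra hcon
    have hm : a x ≤ a (x + U) := h.mono (by omega)
    have hxU : a (x + U) = a x := by omega
    obtain ⟨q, rfl⟩ : ∃ q, x = q + 1 := ⟨x - 1, by omega⟩
    have hq : a (q + 1) ≠ a q := by
      intro e
      have h1 := ih q (by omega)
      have h2 : a (q + U) ≤ a (q + 1 + U) := h.mono (by omega)
      omega
    have hq1 : a (q + 1) = a q + 1 := by
      rcases h.succ_cases q with e | e
      · exact absurd e hq
      · exact e
    have hq3 : 3 ≤ q := by
      by_contra hlt
      have : q = 2 := by omega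
      subst this
      rw [h.two, h.three] at hq1
      omega
    have hS := h.start_eq q hq3 hq1
    set v := a (q + 1) with hv
    have hvq : v = a q + 1 := hq1
    rw [← hvq] at hS
    have hv3 : 3 ≤ v := by
      have : a 3 ≤ a q := h.mono hq3
      rw [h.three] at this
      omega
    have hvx : v + 1 ≤ q + 1 := by
      have := h.le_pred (q + 1) (by omega)
      omega
    -- the next start
    have hT := S_succ a r v
    set T := S a r (v + 1) with hTdef
    -- lower bound
    have hlow : a (v + 1 - r) + 1 ≤ a (v + 1) := by
      rcases Nat.lt_or_ge r (v + 1) with hlt | hge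
      · have h1 := ih (v + 1 - r) (by omega)
        have h2 : a (v + 1 - r + U) ≤ a (v + 1) := h.mono (by omega)
        omega
      · have : v + 1 - r = 0 := by omega
        rw [this, h.zero]
        exact h.pos _ (by omega)
    -- upper bound
    have hup : a (v + 1) ≤ a (v + 1 - r) + U := by
      rcases Nat.lt_or_ge r (v + 1) with hlt | hge
      · by_contra hbig
        set y := v + 1 - r with hy
        set w := a y with hw
        have hy1 : 1 ≤ y := by omega
        have hw1 : 1 ≤ w := h.pos y hy1
        have hbig' : w + 1 + U ≤ a (v + 1) := by omega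
        have hvv : a (v + 1) + 1 ≤ v + 1 := h.le_pred (v + 1) (by omega)
        have hwx : w + 1 < q + 1 := by omega
        -- start of block w+1+U
        have hs1 := h.start (w + 1 + U) (v + 1) (by omega) hbig'
        have hs2 : a (S a r (w + 1)) = w + 1 := h.a_S hr (w + 1) (v + 1) (by omega) (by omega)
        have hs3 : y < S a r (w + 1) := by
          by_contra hle
          have : a (S a r (w + 1)) ≤ a y := h.mono (by omega)
          omega
        have hkey : S a r (w + 1) + r ≤ S a r (w + 1 + U) := by
          rcases Nat.lt_or_ge (w + U + 1) r with hlt2 | hge2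
          · -- initial regime
            have e1 := h.S_add 1 U (by omega)
            have e2 := h.S_add (w + 1) U (by omega)
            rw [h.S_one hr] at e1
            have e3 := h.start (1 + U) (v + 1) (by omega) (by omega)
            have e4 : r < S a r (1 + U) := by
              by_contra hle
              have : a (S a r (1 + U)) ≤ a r := h.mono (by omega)
              omega
            have e5 : ∑ j ∈ range U, a (1 + 1 + j) ≤ ∑ j ∈ range U, a (w + 1 + 1 + j) := by
              apply Finset.sum_le_sum
              intro j _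
              exact h.mono (by omega)
            omega
          · unfold S
            have e1 : ∑ i ∈ range r, (a (w + 1 - i) + 1) ≤ ∑ i ∈ range r, a (w + 1 + U - i) := by
              apply Finset.sum_le_sum
              intro i hi
              have hi' : i < r := Finset.mem_range.mp hi
              rcases Nat.lt_or_ge (w + 1) i with hlt3 | hge3
              · have : w + 1 - i = 0 := by omega
                rw [this, h.zero]
                exact h.pos _ (by omega)
              · have h1 := ih (w + 1 - i) (by omega)
                have h2 : w + 1 - i + U = w + 1 + U - i := by omega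
                rw [h2] at h1
                exact h1
            rw [Finset.sum_add_distrib] at e1
            simp only [Finset.sum_const, Finset.card_range, smul_eq_mul, mul_one] at e1
            exact e1
        omega
      · have : a (v + 1) ≤ a r := h.mono hge
        omega
    -- now q+1 < T ≤ q+1+U
    have hT1 : q + 1 < T := by omega
    have hT2 : T ≤ q + 1 + U := by omega
    obtain ⟨t, ht⟩ : ∃ t, T = t + 1 := ⟨T - 1, by omega⟩
    have ht1 : a t = v := by
      have h1 : a (q + 1) ≤ a t := h.mono (by omega)
      have h2 : a t ≤ a (q + 1 + U) := h.mono (by omega)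
      omega
    have ht2 := h.step t (by omega)
    rw [ht1, ← hTdef, ht] at ht2
    simp only [if_true] at ht2
    have ht3 : a (t + 1) ≤ a (q + 1 + U) := h.mono (by omega)
    omega

end Greedy

end Pool.Agent.X13.AG
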