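import Pool.Agent.X13.AG.Seq

/-! Relation between almost Golomb sequences and Golomb's sequence. -/

namespace Pool.Agent.X13.AG

open Finset

/-- Golomb's sequence: nondecreasing, positive values, each `n ≥ 1` occurs exactly `G n` times. -/
structure IsGolomb (G : ℕ → ℕ) : Prop where
  pos : ∀ n, 1 ≤ n → 1 ≤ G n
  mono : ∀ n, 1 ≤ n → G n ≤ G (n + 1)
  count : ∀ n, 1 ≤ n → Set.ncard {i : ℕ | 1 ≤ i ∧ G i = n} = G n

/-- partial sums -/
def A (G : ℕ → ℕ) (v : ℕ) : ℕ := ∑ i ∈ range v, G (i + 1)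

theorem A_succ (G : ℕ → ℕ) (v : ℕ) : A G (v + 1) = A G v + G (v + 1) := by
  unfold A
  rw [Finset.sum_range_succ]

theorem A_eq_Icc (G : ℕ → ℕ) (v : ℕ) : A G v = ∑ n ∈ Finset.Icc 1 v, G n := by
  induction v with
  | zero => simp [A]
  | succ v ih =>
    rw [A_succ, Finset.sum_Icc_succ_top (by omega), ih]

namespace IsGolomb

variable {G : ℕ → ℕ}

theorem mono_le (h : IsGolomb G) (i j : ℕ) (hi : 1 ≤ i) (hij : i ≤ j) : G i ≤ G j := by
  induction j, hij using Nat.le_induction with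
  | base => exact le_refl _
  | succ j hj ih => exact ih.trans (h.mono j (by omega))

theorem finite_eq (h : IsGolomb G) (n : ℕ) (hn : 1 ≤ n) : {i : ℕ | 1 ≤ i ∧ G i = n}.Finite := by
  apply Set.finite_of_ncard_pos
  rw [h.count n hn]
  exact h.pos n hn

theorem card_le (h : IsGolomb G) (v : ℕ) :
    {i : ℕ | 1 ≤ i ∧ G i ≤ v}.Finite ∧ Set.ncard {i : ℕ | 1 ≤ i ∧ G i ≤ v} = A G v := by
  induction v with
  | zero =>
    have : {i : ℕ | 1 ≤ i ∧ G i ≤ 0} = ∅ := by
      ext i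
      simp only [Set.mem_ofPred_eq, Set.mem_empty_iff_false, iff_false, not_and]
      intro hi
      have := h.pos i hi
      omega
    rw [this]
    simp [A]
  | succ v ih =>
    have hset : {i : ℕ | 1 ≤ i ∧ G i ≤ v + 1} =
        {i : ℕ | 1 ≤ i ∧ G i ≤ v} ∪ {i : ℕ | 1 ≤ i ∧ G i = v + 1} := by
      ext i
      simp only [Set.mem_ofPred_eq, Set.mem_union]
      constructor
      · rintro ⟨h1, h2⟩
        rcases Nat.lt_or_ge v (G i) with h3 | h3
        · right; exact ⟨h1, by omega⟩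
        · left; exact ⟨h1, h3⟩
      · rintro (⟨h1, h2⟩ | ⟨h1, h2⟩)
        · exact ⟨h1, by omega⟩
        · exact ⟨h1, by omega⟩
    have hf := h.finite_eq (v + 1) (by omega)
    rw [hset]
    refine ⟨ih.1.union hf, ?_⟩
    rw [Set.ncard_union_eq _ ih.1 hf, ih.2, h.count (v + 1) (by omega), A_succ]
    rw [Set.disjoint_left]
    rintro i ⟨h1, h2⟩ ⟨h3, h4⟩
    omega

theorem le_iff (h : IsGolomb G) (v i : ℕ) (hi : 1 ≤ i) : G i ≤ v ↔ i ≤ A G v := by
  obtain ⟨hf, hc⟩ := h.card_le v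
  constructor
  · intro hle
    have hsub : (↑(Finset.Icc 1 i) : Set ℕ) ⊆ {i : ℕ | 1 ≤ i ∧ G i ≤ v} := by
      intro j hj
      simp only [Finset.coe_Icc, Set.mem_Icc] at hj
      exact ⟨hj.1, (h.mono_le j i hj.1 hj.2).trans hle⟩
    have := Set.ncard_le_ncard hsub hf
    rw [Set.ncard_coe_finset, Nat.card_Icc, hc] at this
    omega
  · intro hle
    by_contra hcon
    have hsub : {i : ℕ | 1 ≤ i ∧ G i ≤ v} ⊆ (↑(Finset.Icc 1 (i - 1)) : Set ℕ) := by
      rintro j ⟨hj1, hj2⟩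
      simp only [Finset.coe_Icc, Set.mem_Icc]
      refine ⟨hj1, ?_⟩
      by_contra hcon2
      have := h.mono_le i j hi (by omega)
      omega
    have := Set.ncard_le_ncard hsub (Finset.finite_toSet _)
    rw [Set.ncard_coe_finset, Nat.card_Icc, hc] at this
    omega

theorem G_one (h : IsGolomb G) : G 1 = 1 := by
  have h1 := h.pos 1 (by omega)
  have h2 := h.le_iff 1 1 (by omega)
  have h3 : A G 1 = G 1 := by simp [A]
  rw [h3] at h2
  have := h2.mpr h1
  omega

theorem A_one (h : IsGolomb G) : A G 1 = 1 := by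
  have h3 : A G 1 = G 1 := by simp [A]
  rw [h3, h.G_one]

theorem G_two (h : IsGolomb G) : G 2 = 2 := by
  have h1 := h.pos 2 (by omega)
  have h2 := h.le_iff 1 2 (by omega)
  rw [h.A_one] at h2
  have h3 := h.le_iff 2 2 (by omega)
  have h4 : A G 2 = 1 + G 2 := by rw [A_succ, h.A_one]
  omega

theorem A_two (h : IsGolomb G) : A G 2 = 3 := by
  rw [A_succ, h.A_one, h.G_two]

theorem G_three (h : IsGolomb G) : G 3 = 2 := by
  have h2 := h.le_iff 1 3 (by omega)
  rw [h.A_one] at h2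
  have h3 := h.le_iff 2 3 (by omega)
  rw [h.A_two] at h3
  omega

theorem G_four_ge (h : IsGolomb G) : 3 ≤ G 4 := by
  have h3 := h.le_iff 2 4 (by omega)
  rw [h.A_two] at h3
  omega

theorem A_ge (h : IsGolomb G) (v : ℕ) (hv : 2 ≤ v) : v + 1 ≤ A G v := by
  induction v, hv using Nat.le_induction with
  | base => rw [h.A_two]
  | succ v hv ih =>
    rw [A_succ]
    have := h.pos (v + 1) (by omega)
    omega

theorem G_le_pred (h : IsGolomb G) (m : ℕ) (hm : 3 ≤ m) : G m + 1 ≤ m := by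
  have h1 := h.le_iff (m - 1) m (by omega)
  have h2 := h.A_ge (m - 1) (by omega)
  have := h1.mpr (by omega)
  omega

theorem S_eq (h : IsGolomb G) {a : ℕ → ℕ} {r : ℕ} (ha : Greedy a r) (hr : 3 ≤ r) (c : ℕ)
    (hc : 3 ≤ c) (hcr : c ≤ r) (hj : ∀ j, 3 ≤ j → j ≤ c → a j = G (j - 1)) :
    S a r c = A G (c - 1) + 2 := by
  obtain ⟨t, rfl⟩ : ∃ t, c = 2 + t := ⟨c - 2, by omega⟩
  rw [ha.S_add 2 t hcr, ha.S_two (by omega)]
  have e1 : 2 + t - 1 = t + 1 := by omega
  rw [e1]
  have e2 : A G (t + 1) = (∑ i ∈ range t, G (i + 2)) + G 1 := by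
    unfold A
    rw [Finset.sum_range_succ']
  have e3 : ∑ j ∈ range t, a (2 + 1 + j) = ∑ i ∈ range t, G (i + 2) := by
    apply Finset.sum_congr rfl
    intro j hjt
    have hjt' : j < t := Finset.mem_range.mp hjt
    rw [hj (2 + 1 + j) (by omega) (by omega)]
    congr 1
    omega
  rw [e2, e3, h.G_one]
  omega

/-- in the initial range the almost Golomb sequence is Golomb's sequence shifted by one -/
theorem shift (h : IsGolomb G) {a : ℕ → ℕ} {r : ℕ} (ha : Greedy a r) (hr : 3 ≤ r) :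
    ∀ n, 3 ≤ n → n ≤ r + 1 → a n = G (n - 1) := by
  intro n
  induction n using Nat.strong_induction_on with
  | _ n ih =>
  intro hn3 hnr
  rcases Nat.lt_or_ge n 5 with hn5 | hn5
  · have : n = 3 ∨ n = 4 := by omega
    rcases this with e | e
    · subst e
      rw [ha.three]
      simp only [Nat.add_one_sub_one]
      rw [h.G_two]
    · subst e
      rw [ha.four hr]
      simp only [Nat.reduceSub]
      rw [h.G_three]
  · set v := G (n - 1) with hv
    have hv3 : 3 ≤ v := by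
      have h1 := h.G_four_ge
      have h2 := h.mono_le 4 (n - 1) (by omega) (by omega)
      omega
    have hvn : v + 1 ≤ n - 1 := h.G_le_pred (n - 1) (by omega)
    have e1 := h.S_eq ha hr v hv3 (by omega) (fun j hj1 hj2 => ih j (by omega) hj1 (by omega))
    have e2 := h.S_eq ha hr (v + 1) (by omega) (by omega)
      (fun j hj1 hj2 => ih j (by omega) hj1 (by omega))
    simp only [Nat.add_sub_cancel] at e2
    have g1 := h.le_iff v (n - 1) (by omega)
    have g2 := h.le_iff (v - 1) (n - 1) (by omega)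
    have f1 := ha.lt_S (by omega) v hv3 n
    have f2 := ha.lt_S (by omega) (v + 1) (by omega) n
    rw [e1] at f1
    rw [e2] at f2
    have g3 := g1.mp (le_refl _)
    have g4 : ¬ (n - 1 ≤ A G (v - 1)) := fun hh => by
      have := g2.mpr hh
      omega
    have f3 := f2.mp (by omega)
    have f4 : ¬ a n < v := fun hh => by
      have := f1.mpr hh
      omega
    omega

end IsGolomb

/-- `M`: the largest number of occurrences of a value -/
noncomputable def maxMult (a : ℕ → ℕ) : ℕ := sSup {t : ℕ | ∃ n, 1 ≤ n ∧ t = mult a n}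

theorem Greedy.bdd {a : ℕ → ℕ} {r : ℕ} (ha : Greedy a r) (hr : 2 ≤ r) :
    BddAbove {t : ℕ | ∃ n, 1 ≤ n ∧ t = mult a n} := by
  refine ⟨U a r, ?_⟩
  rintro t ⟨n, hn, rfl⟩
  exact ha.mult_le hr n

theorem Greedy.maxMult_le {a : ℕ → ℕ} {r : ℕ} (ha : Greedy a r) (hr : 2 ≤ r) :
    maxMult a ≤ U a r := by
  unfold maxMult
  apply csSup_le
  · exact ⟨_, 1, le_refl 1, rfl⟩
  · rintro t ⟨n, hn, rfl⟩
    exact ha.mult_le hr n

theorem Greedy.isGreatest {a : ℕ → ℕ} {r : ℕ} (ha : Greedy a r) (hr : 5 ≤ r) :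
    IsGreatest {t : ℕ | ∃ n, 1 ≤ n ∧ t = mult a n} (mult a (r - 1)) := by
  refine ⟨⟨r - 1, by omega, rfl⟩, ?_⟩
  rintro t ⟨n, hn, rfl⟩
  rw [ha.mult_pred (by omega), ← ha.U_eq hr]
  exact ha.mult_le (by omega) n

theorem Greedy.maxMult_eq {a : ℕ → ℕ} {r : ℕ} (ha : Greedy a r) (hr : 5 ≤ r) :
    maxMult a = a r := by
  have h := (ha.isGreatest hr).csSup_eq
  rw [ha.mult_pred (by omega)] at h
  exact h

theorem Greedy.maxMult_small {a : ℕ → ℕ} {r : ℕ} (ha : Greedy a r) (hr : 2 ≤ r) (hr4 : r ≤ 4) :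
    maxMult a ≤ 3 := by
  have h := ha.maxMult_le hr
  have h2 : U a r ≤ 3 := by
    unfold U
    split_ifs with h2
    · omega
    · have : a r ≤ a 4 := ha.mono hr4
      rw [ha.four (by omega)] at this
      omega
  omega

theorem isLeast_threshold {G : ℕ → ℕ} (hG : IsGolomb G) (a : ℕ → ℕ → ℕ)
    (ha : ∀ r, 2 ≤ r → Greedy (a r) r) (k : ℕ) (hk : 4 ≤ k) :
    IsLeast {r : ℕ | 2 ≤ r ∧ k ≤ maxMult (a r)} (A G (k - 1) + 2) := by
  have hA := hG.A_ge (k - 1) (by omega)
  constructor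
  · refine ⟨by omega, ?_⟩
    rw [(ha _ (by omega)).maxMult_eq (by omega),
      hG.shift (ha _ (by omega)) (by omega) _ (by omega) (by omega)]
    have e : A G (k - 1) + 2 - 1 = A G (k - 1) + 1 := by omega
    rw [e]
    by_contra hcon
    have h1 := hG.le_iff (k - 1) (A G (k - 1) + 1) (by omega)
    have := h1.mp (by omega)
    omega
  · rintro r ⟨hr, hkr⟩
    rcases Nat.lt_or_ge r 5 with h5 | h5
    · have := (ha r hr).maxMult_small hr (by omega)
      omega
    · rw [(ha r hr).maxMult_eq h5, hG.shift (ha r hr) (by omega) r (by omega) (by omega)] at hkr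
      have h1 := hG.le_iff (k - 1) (r - 1) (by omega)
      by_contra hcon
      have := h1.mpr (by omega)
      omega

end Pool.Agent.X13.AG
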