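import Pool.Agent.X13.AG.Core

/-! Almost Golomb sequences: existence, minimality, multiplicities. -/

namespace Pool.Agent.X13.AG

open Finset

/-! ### existence of the greedy sequence -/

def tab (r : ℕ) : ℕ → ℕ → ℕ
  | 0 => fun k => if k = 0 then 0 else if k = 1 then 1 else 2
  | (n + 1) => Function.update (tab r n) (n + 4)
      (if n + 4 = S (tab r n) r (tab r n (n + 3) + 1) then tab r n (n + 3) + 1
        else tab r n (n + 3))

def gr (r k : ℕ) : ℕ := tab r k k

theorem tab_succ_of_ne (r n k : ℕ) (hk : k ≠ n + 4) : tab r (n + 1) k = tab r n k := by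
  show Function.update (tab r n) (n + 4) _ k = _
  rw [Function.update_of_ne hk]

theorem tab_stable (r n m k : ℕ) (hnm : n ≤ m) (hk : k ≤ n + 3) : tab r m k = tab r n k := by
  induction m, hnm using Nat.le_induction with
  | base => rfl
  | succ m hm ih =>
    rw [tab_succ_of_ne r m k (by omega), ih]

theorem tab_eq_gr (r n k : ℕ) (hk : k ≤ n + 3) : tab r n k = gr r k := by
  unfold gr
  rcases Nat.le_total n k with h | h
  · exact (tab_stable r n k k h hk).symm
  · exact tab_stable r k n k h (by omega)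

theorem S_congr (a b : ℕ → ℕ) (r n : ℕ) (h : ∀ k, k ≤ n → a k = b k) : S a r n = S b r n := by
  unfold S
  apply Finset.sum_congr rfl
  intro i _
  exact h _ (by omega)

theorem gr_step_aux (r m : ℕ) : gr r (m + 4) =
    (if m + 4 = S (tab r m) r (tab r m (m + 3) + 1) then tab r m (m + 3) + 1
        else tab r m (m + 3)) := by
  rw [← tab_eq_gr r (m + 1) (m + 4) (by omega)]
  show Function.update (tab r m) (m + 4) _ (m + 4) = _
  rw [Function.update_self]

theorem gr_le (r m : ℕ) : gr r (m + 3) + 1 ≤ m + 3 := by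
  induction m with
  | zero =>
    rw [← tab_eq_gr r 0 3 (by omega)]
    simp [tab]
  | succ m ih =>
    have h := gr_step_aux r m
    rw [tab_eq_gr r m (m + 3) (by omega)] at h
    have e : m + 1 + 3 = m + 4 := by omega
    rw [e]
    split_ifs at h <;> omega

theorem greedy_gr (r : ℕ) : Greedy (gr r) r where
  zero := by rw [← tab_eq_gr r 0 0 (by omega)]; simp [tab]
  one := by rw [← tab_eq_gr r 0 1 (by omega)]; simp [tab]
  two := by rw [← tab_eq_gr r 0 2 (by omega)]; simp [tab]
  three := by rw [← tab_eq_gr r 0 3 (by omega)]; simp [tab]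
  step := by
    intro n hn
    obtain ⟨m, rfl⟩ : ∃ m, n = m + 3 := ⟨n - 3, by omega⟩
    have h := gr_step_aux r m
    have e1 : tab r m (m + 3) = gr r (m + 3) := tab_eq_gr r m (m + 3) (by omega)
    have e2 : S (tab r m) r (gr r (m + 3) + 1) = S (gr r) r (gr r (m + 3) + 1) := by
      apply S_congr
      intro k hk
      exact tab_eq_gr r m k (by have := gr_le r m; omega)
    rw [e1, e2] at h
    exact h

/-! ### the bound -/

/-- the bound for the multiplicities -/
def U (a : ℕ → ℕ) (r : ℕ) : ℕ := if r = 2 then 2 else max 3 (a r)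

namespace Greedy

variable {a : ℕ → ℕ} {r : ℕ}

theorem S_three_two (h : Greedy a 2) : S a 2 3 = 4 := by
  simp [S, Finset.sum_range_succ, h.two, h.three]

theorem S_three (h : Greedy a r) (hr : 3 ≤ r) : S a r 3 = 5 := by
  have := S_succ a r 2
  have h0 : 2 + 1 - r = 0 := by omega
  rw [h0, h.zero, h.S_two (by omega)] at this
  simp only [Nat.reduceAdd, h.three] at this
  omega

theorem four_two (h : Greedy a 2) : a 4 = 3 := by
  have := h.step 3 (by omega)
  rw [h.three] at this
  simp only [Nat.reduceAdd, h.S_three_two] at this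
  simpa using this

theorem four (h : Greedy a r) (hr : 3 ≤ r) : a 4 = 2 := by
  have := h.step 3 (by omega)
  rw [h.three] at this
  simp only [Nat.reduceAdd, h.S_three hr] at this
  simpa using this

theorem five (h : Greedy a r) (hr : 3 ≤ r) : a 5 = 3 := by
  have := h.step 4 (by omega)
  rw [h.four hr] at this
  simp only [Nat.reduceAdd, h.S_three hr] at this
  simpa using this

theorem window' (h : Greedy a r) (hr : 2 ≤ r) : ∀ x, a x + 1 ≤ a (x + U a r) := by
  unfold U
  split_ifs with h2
  · subst h2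
    apply h.window (by omega) 2 (by omega) (by omega)
    · rw [h.two]
    · simp only [Nat.reduceAdd]
      rw [h.four_two]
  · have hr3 : 3 ≤ r := by omega
    have h5 := h.five hr3
    have hlp := h.le_pred r hr3
    apply h.window (by omega) (max 3 (a r)) (by omega) (by omega) (by omega)
    have : a 5 ≤ a (2 + max 3 (a r)) := h.mono (by omega)
    omega

theorem unbounded (h : Greedy a r) (hr : 2 ≤ r) (c : ℕ) : ∃ n, c ≤ a n := by
  refine ⟨c * U a r, ?_⟩
  induction c with
  | zero => omega
  | succ c ih =>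
    have := h.window' hr (c * U a r)
    rw [Nat.succ_mul]
    omega

theorem self (h : Greedy a r) (hr : 2 ≤ r) (c : ℕ) (hc : 1 ≤ c) : a (S a r c) = c := by
  obtain ⟨n, hn⟩ := h.unbounded hr c
  exact h.a_S hr c n hc hn

theorem lt_S (h : Greedy a r) (hr : 2 ≤ r) (c : ℕ) (hc : 3 ≤ c) (i : ℕ) :
    i < S a r c ↔ a i < c := by
  obtain ⟨n, hn⟩ := h.unbounded hr c
  obtain ⟨-, h2, h3, h4⟩ := h.start c n hc hn
  constructor
  · intro hi
    have : a i ≤ a (S a r c - 1) := h.mono (by omega)
    omega
  · intro hi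
    by_contra hcon
    have : a (S a r c) ≤ a i := h.mono (by omega)
    omega

end Greedy

/-- number of occurrences of `c` among `a 1, a 2, ...` -/
noncomputable def mult (a : ℕ → ℕ) (c : ℕ) : ℕ := Set.ncard {i : ℕ | 1 ≤ i ∧ a i = c}

namespace Greedy

variable {a : ℕ → ℕ} {r : ℕ}

theorem mult_eq (h : Greedy a r) (hr : 2 ≤ r) (c : ℕ) (hc : 3 ≤ c) :
    mult a c + a (c + 1 - r) = a (c + 1) := by
  unfold mult
  have hset : {i : ℕ | 1 ≤ i ∧ a i = c} = ↑(Finset.Ico (S a r c) (S a r (c + 1))) := by
    ext i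
    simp only [Set.mem_ofPred_eq, Finset.coe_Ico, Set.mem_Ico]
    have h1 := h.lt_S hr c hc i
    have h2 := h.lt_S hr (c + 1) (by omega) i
    constructor
    · rintro ⟨-, h3⟩
      constructor
      · by_contra hcon
        have := h1.mp (by omega)
        omega
      · exact h2.mpr (by omega)
    · rintro ⟨h3, h4⟩
      have h5 : ¬ a i < c := fun hh => by
        have := h1.mpr hh
        omega
      have h6 := h2.mp h4
      refine ⟨?_, by omega⟩
      by_contra h0
      have : i = 0 := by omega
      subst this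
      rw [h.zero] at h5
      omega
  rw [hset, Set.ncard_coe_finset, Nat.card_Ico]
  have h3 := S_succ a r c
  have h4 : S a r c < S a r (c + 1) := by
    rw [h.lt_S hr (c + 1) (by omega), h.self hr c (by omega)]
    omega
  omega

theorem mult_le (h : Greedy a r) (hr : 2 ≤ r) (c : ℕ) : mult a c ≤ U a r := by
  classical
  unfold mult
  rcases Set.eq_empty_or_nonempty {i : ℕ | 1 ≤ i ∧ a i = c} with he | hne
  · rw [he]; simp
  · have hex : ∃ i, 1 ≤ i ∧ a i = c := hne
    let p := Nat.find hex
    have hp := Nat.find_spec hex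
    have hsub : {i : ℕ | 1 ≤ i ∧ a i = c} ⊆ ↑(Finset.Ico p (p + U a r)) := by
      rintro i ⟨hi1, hi2⟩
      simp only [Finset.coe_Ico, Set.mem_Ico]
      refine ⟨Nat.find_min' hex ⟨hi1, hi2⟩, ?_⟩
      by_contra hcon
      have h1 := h.window' hr p
      have h2 : a (p + U a r) ≤ a i := h.mono (by omega)
      have h3 : a p = c := hp.2
      omega
    have := Set.ncard_le_ncard hsub (Finset.finite_toSet _)
    rw [Set.ncard_coe_finset, Nat.card_Ico] at this
    omega

theorem mult_pred (h : Greedy a r) (hr : 4 ≤ r) : mult a (r - 1) = a r := by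
  have := h.mult_eq (by omega) (r - 1) (by omega)
  have e1 : r - 1 + 1 = r := by omega
  rw [e1, Nat.sub_self, h.zero] at this
  omega

theorem U_eq (h : Greedy a r) (hr : 5 ≤ r) : U a r = a r := by
  unfold U
  rw [if_neg (by omega)]
  have h5 := h.five (by omega)
  have : a 5 ≤ a r := h.mono hr
  omega

end Greedy

/-! ### the definition -/

/-- `a 1, a 2, ...` is a nondecreasing sequence of positive integers with
`a (a n + a (n-1) + ... + a (n-r+1)) = n` for all `n ≥ 1`, where `a k` is read as `0` for `k ≤ 0`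
(in Lean: `a 0 = 0` and natural subtraction). -/
structure Candidate (r : ℕ) (a : ℕ → ℕ) : Prop where
  zero : a 0 = 0
  pos : ∀ n, 1 ≤ n → 1 ≤ a n
  mono : ∀ n, 1 ≤ n → a n ≤ a (n + 1)
  self : ∀ n, 1 ≤ n → a (∑ i ∈ Finset.range r, a (n - i)) = n

/-- The almost Golomb sequence of order `r`: the candidate each of whose terms is as small as
possible, that is, the lexicographically least candidate. -/
def AlmostGolomb (r : ℕ) (a : ℕ → ℕ) : Prop :=
  Candidate r a ∧ ∀ b, Candidate r b → b ≠ a → ∃ n, (∀ k, k < n → b k = a k) ∧ a n < b n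

theorem Greedy.candidate {a : ℕ → ℕ} {r : ℕ} (h : Greedy a r) (hr : 2 ≤ r) : Candidate r a where
  zero := h.zero
  pos := h.pos
  mono := fun _ _ => h.mono (by omega)
  self := fun n hn => h.self hr n hn

namespace Candidate

variable {b : ℕ → ℕ} {r : ℕ}

theorem mono' (h : Candidate r b) : Monotone b := by
  apply monotone_nat_of_le_succ
  intro n
  rcases Nat.eq_zero_or_pos n with hn | hn
  · subst hn
    rw [h.zero]
    omega
  · exact h.mono n hn

theorem one (h : Candidate r b) (hr : 2 ≤ r) : b 1 = 1 := by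
  have h1 := h.self 1 (by omega)
  have hp := h.pos 1 (by omega)
  have hle : 1 ≤ ∑ i ∈ Finset.range r, b (1 - i) := by
    have h0 : (0 : ℕ) ∈ Finset.range r := Finset.mem_range.mpr (by omega)
    have := Finset.single_le_sum (f := fun i => b (1 - i)) (fun i _ => Nat.zero_le _) h0
    simp only [Nat.sub_zero] at this
    omega
  have := h.mono' hle
  omega

theorem succ_le (h : Candidate r b) (n : ℕ) (hn : 1 ≤ n) : b (n + 1) ≤ b n + 1 := by
  have h1 := h.self (b n + 1) (by omega)
  by_contra hcon
  have hlt : n < ∑ i ∈ Finset.range r, b (b n + 1 - i) := by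
    by_contra hle
    have := h.mono' (not_lt.mp hle)
    omega
  have := h.mono' (Nat.succ_le_of_lt hlt)
  simp only [Nat.succ_eq_add_one] at this
  omega

theorem two (h : Candidate r b) (hr : 2 ≤ r) : b 2 = 2 := by
  have h1 := h.one hr
  have h2 := h.succ_le 1 (by omega)
  have h3 := h.self 2 (by omega)
  have hp := h.pos 2 (by omega)
  simp only [Nat.reduceAdd] at h2
  have hs : ∑ i ∈ Finset.range r, b (2 - i) = b 2 + b 1 := by
    obtain ⟨s, rfl⟩ : ∃ s, r = s + 2 := ⟨r - 2, by omega⟩
    rw [Finset.sum_range_succ', Finset.sum_range_succ']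
    have : ∑ i ∈ range s, b (2 - (i + 1 + 1)) = 0 := by
      apply Finset.sum_eq_zero
      intro i _
      have : 2 - (i + 1 + 1) = 0 := by omega
      rw [this, h.zero]
    rw [this]
    simp
    ring
  rw [hs, h1] at h3
  by_contra hne
  have h4 : b 2 = 1 := by omega
  rw [h4] at h3
  simp only [Nat.reduceAdd] at h3
  omega

theorem three (h : Candidate r b) (hr : 2 ≤ r) : b 3 = 2 := by
  have h1 := h.one hr
  have h2 := h.two hr
  have h3 := h.self 2 (by omega)
  have hs : ∑ i ∈ Finset.range r, b (2 - i) = b 2 + b 1 := by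
    obtain ⟨s, rfl⟩ : ∃ s, r = s + 2 := ⟨r - 2, by omega⟩
    rw [Finset.sum_range_succ', Finset.sum_range_succ']
    have : ∑ i ∈ range s, b (2 - (i + 1 + 1)) = 0 := by
      apply Finset.sum_eq_zero
      intro i _
      have : 2 - (i + 1 + 1) = 0 := by omega
      rw [this, h.zero]
    rw [this]
    simp
    ring
  rw [hs, h1, h2] at h3
  exact h3

end Candidate

theorem Greedy.lex {a b : ℕ → ℕ} {r : ℕ} (h : Greedy a r) (hr : 2 ≤ r) (hb : Candidate r b)
    (hne : b ≠ a) : ∃ n, (∀ k, k < n → b k = a k) ∧ a n < b n := by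
  classical
  have hex : ∃ n, b n ≠ a n := by
    by_contra hcon
    push Not at hcon
    exact hne (funext hcon)
  let n := Nat.find hex
  have hn : b n ≠ a n := Nat.find_spec hex
  have hlt : ∀ k, k < n → b k = a k := fun k hk => by
    by_contra hcon
    exact Nat.find_min hex hk hcon
  refine ⟨n, hlt, ?_⟩
  have hn4 : 4 ≤ n := by
    by_contra hcon
    have : n = 0 ∨ n = 1 ∨ n = 2 ∨ n = 3 := by omega
    rcases this with e | e | e | e
    · rw [e, h.zero, hb.zero] at hn; exact hn rfl
    · rw [e, h.one, hb.one hr] at hn; exact hn rfl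
    · rw [e, h.two, hb.two hr] at hn; exact hn rfl
    · rw [e, h.three, hb.three hr] at hn; exact hn rfl
  obtain ⟨q, hq⟩ : ∃ q, n = q + 1 := ⟨n - 1, by omega⟩
  rw [hq] at hn hlt ⊢
  have hq3 : 3 ≤ q := by omega
  have e1 : b q = a q := hlt q (by omega)
  have e2 := hb.succ_le q (by omega)
  have e3 := hb.mono q (by omega)
  rcases h.succ_cases q with e | e
  · omega
  · exfalso
    have h1 := h.start_eq q hq3 e
    have h2 : S a r (a q + 1) = S b r (a q + 1) := by
      apply S_congr
      intro k hk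
      exact (hlt k (by have := h.le_pred q hq3; omega)).symm
    have h3 := hb.self (a q + 1) (by omega)
    have h4 : (∑ i ∈ Finset.range r, b (a q + 1 - i)) = q + 1 := by
      rw [h1, h2]; rfl
    rw [h4] at h3
    omega

theorem almostGolomb_gr (r : ℕ) (hr : 2 ≤ r) : AlmostGolomb r (gr r) :=
  ⟨(greedy_gr r).candidate hr, fun _ hb hne => (greedy_gr r).lex hr hb hne⟩

theorem AlmostGolomb.unique {r : ℕ} {a b : ℕ → ℕ} (ha : AlmostGolomb r a)
    (hb : AlmostGolomb r b) : a = b := by
  by_contra hne
  obtain ⟨n, h1, h2⟩ := ha.2 b hb.1 (fun e => hne e.symm)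
  obtain ⟨m, h3, h4⟩ := hb.2 a ha.1 hne
  rcases Nat.lt_trichotomy n m with h | h | h
  · have := h3 n h
    omega
  · subst h
    omega
  · have := h1 m h
    omega

theorem AlmostGolomb.greedy {r : ℕ} {a : ℕ → ℕ} (hr : 2 ≤ r) (ha : AlmostGolomb r a) :
    Greedy a r := by
  rw [ha.unique (almostGolomb_gr r hr)]
  exact greedy_gr r

theorem existsUnique_almostGolomb (r : ℕ) (hr : 2 ≤ r) : ∃! a, AlmostGolomb r a :=
  ⟨gr r, almostGolomb_gr r hr, fun _ hb => hb.unique (almostGolomb_gr r hr)⟩

end Pool.Agent.X13.AG
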